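import Pool.Agent.ASO.StmtsL

/-!
# Squad ASO, row LCM: operators which commute with an operator which is not scalar
-/

noncomputable section

namespace Pool.Agent.PP.SO.H18

section

variable {ℓ : ℕ} [Fact ℓ.Prime] {V : Type} [AddCommGroup V] [Module (ZMod ℓ) V]

/-- two independent vectors -/
lemma exists_pair (h2 : Module.finrank (ZMod ℓ) V = 2) :
    ∃ c w : V, c ≠ 0 ∧ ∀ a : ZMod ℓ, w ≠ a • c := by
  have hnt : Nontrivial V := Module.nontrivial_of_finrank_pos (R := ZMod ℓ) (by omega)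
  obtain ⟨c, hc⟩ := exists_ne (0 : V)
  by_contra hcon
  push Not at hcon
  have h1 : Module.finrank (ZMod ℓ) V ≤ 1 := by
    refine finrank_le_one c fun w => ?_
    obtain ⟨a, ha⟩ := hcon c w hc
    exact ⟨a, ha.symm⟩
  omega

/-- an operator which is not scalar moves some line -/
lemma exists_mov (ltb : LTbStmt) (h2 : Module.finrank (ZMod ℓ) V = 2)
    (θ : Module.End (ZMod ℓ) V) (hθ : ∀ a : ZMod ℓ, θ ≠ a • 1) :
    ∃ c : V, ∀ a : ZMod ℓ, θ c ≠ a • c := by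
  by_contra hcon
  push Not at hcon
  obtain ⟨c, w, hc, hw⟩ := exists_pair (ℓ := ℓ) h2
  obtain ⟨l1, l2, -⟩ := ltb ℓ V h2 c w hc hw
  obtain ⟨α, hα⟩ := hcon c
  obtain ⟨β, hβ⟩ := hcon w
  obtain ⟨γ, hγ⟩ := hcon (w + c)
  have h3 : (β - γ) • w + (α - γ) • c = 0 := by
    rw [map_add, hα, hβ] at hγ
    rw [sub_smul, sub_smul]
    have : β • w + α • c - γ • (w + c) = 0 := sub_eq_zero.2 hγ
    rw [← this, smul_add]
    abel
  obtain ⟨e1, e2⟩ := l2 _ _ h3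
  have e3 : α = β := by
    rw [sub_eq_zero] at e1 e2
    rw [e1, e2]
  refine hθ α ?_
  refine LinearMap.ext fun v => ?_
  obtain ⟨a, b, rfl⟩ := l1 v
  rw [map_add, map_smul, map_smul, hα, hβ, e3]
  simp only [LinearMap.smul_apply, Module.End.one_apply, smul_add, smul_smul]
  rw [mul_comm a, mul_comm b]

/-- operators which commute with `θ` -/
lemma comm_form (ltb : LTbStmt) (h2 : Module.finrank (ZMod ℓ) V = 2)
    (θ g : Module.End (ZMod ℓ) V) (hθ : ∀ a : ZMod ℓ, θ ≠ a • 1) (hg : θ * g = g * θ) :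
    ∃ x y : ZMod ℓ, g = x • 1 + y • θ := by
  obtain ⟨c, hc⟩ := exists_mov ltb h2 θ hθ
  have hc0 : c ≠ 0 := by
    rintro rfl
    exact hc 0 (by simp)
  obtain ⟨l1, -, -⟩ := ltb ℓ V h2 c (θ c) hc0 hc
  obtain ⟨y, x, hyx⟩ := l1 (g c)
  have hcom : ∀ v, g (θ v) = θ (g v) := fun v => by
    have := congrArg (fun T : Module.End (ZMod ℓ) V => T v) hg
    exact this.symm
  refine ⟨x, y, LinearMap.ext fun v => ?_⟩
  obtain ⟨a, b, rfl⟩ := l1 v
  simp only [LinearMap.add_apply, LinearMap.smul_apply, Module.End.one_apply, map_add, map_smul,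
    hcom, hyx]
  module

end

/-- **LCM.** -/
theorem lcm (ltb : LTbStmt) : LCmStmt := by
  intro ℓ _ V _ _ h2 g₀ hg₀
  refine ⟨exists_mov ltb h2 g₀ hg₀, ?_, ?_⟩
  · intro θ g hθ h1 h3
    obtain ⟨x₀, y₀, e0⟩ := comm_form ltb h2 θ g₀ hθ h1
    obtain ⟨x, y, e1⟩ := comm_form ltb h2 θ g hθ h3
    have hy : y₀ ≠ 0 := by
      rintro rfl
      refine hg₀ x₀ ?_
      rw [e0, zero_smul, add_zero]
    refine ⟨x - y * y₀⁻¹ * x₀, y * y₀⁻¹, ?_⟩
    have h5 : y * y₀⁻¹ * y₀ = y := by rw [mul_assoc, inv_mul_cancel₀ hy, mul_one]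
    rw [e1, e0, smul_add, smul_smul (y * y₀⁻¹) y₀, h5, sub_smul, smul_smul]
    module
  · obtain ⟨x, y, e⟩ := comm_form ltb h2 g₀ (g₀ * g₀) hg₀ (by rw [mul_assoc])
    refine ⟨y, -x, ?_⟩
    rw [e, neg_smul, sub_neg_eq_add, add_comm]

end Pool.Agent.PP.SO.H18

end
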